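import Pool.Agent.H484.AL.Stm

/-!
# CORE1: the core statement for `e = 1` (helper356)
-/

namespace Pool.Agent.H484.AL

open Finset
open scoped Classical

theorem CORE1_mono {d R N : ℕ} {a : Fin d → ℕ} {s s' : ℝ} (h : s' ≤ s) (hg : Good d R N a s) :
    Good d R N a s' := by
  obtain ⟨K, hK, hs⟩ := hg
  exact ⟨K, hK, h.trans hs⟩

theorem t_CORE1 (hFINEW : S_FINEW) (hUNI : S_UNI) (hASYE : S_ASYE) : S_CORE1 := by
  intro R ε hε
  obtain ⟨c, N0, hc, hN0, H⟩ := hASYE (max R 8) ε hε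
  refine ⟨c, 1 / 100, N0, hc, by norm_num, ?_⟩
  intro g M a0 α hN hgN hcop _
  obtain ⟨n, hn1, hn2, hn3, hn4, hn5⟩ := H (g * M) hN
  obtain ⟨h6, h7⟩ := hn5 g M rfl hgN
  have hgM : 0 < g * M := by omega
  have hg : 1 ≤ g := Nat.pos_of_ne_zero (by rintro rfl; simp at hgM)
  have hM : 1 ≤ M := Nat.pos_of_ne_zero (by rintro rfl; simp at hgM)
  have hNr : (1 : ℝ) ≤ ((g * M : ℕ) : ℝ) := by exact_mod_cast hgM
  set Q : ℝ := ((g * M : ℕ) : ℝ) ^ (1 / 4 : ℝ) with hQ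
  have hQ1 : 1 ≤ Q := Real.one_le_rpow hNr (by norm_num)
  obtain ⟨f1, f2⟩ := hFINEW (max R 8) n Q (le_trans (by norm_num) (le_max_right R 8)) hn2 hQ1
  set F : ℝ := (n : ℝ) * Real.log (n : ℝ) / 48 with hF
  set W := (words (n ^ 2) n).filter (fun w => ((qq w).1 : ℝ) ≤ Q ∧
        F ≤ (FF (max R 8) n w : ℝ)) with hW
  have hU := hUNI R (max R 8) n g M a0 n (n ^ 2) α W F (le_max_left _ _) (le_max_right _ _) hg hM
    hcop (Finset.filter_subset _ _) (by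
      intro w hw
      rw [hW, Finset.mem_filter] at hw
      refine ⟨?_, hw.2.2⟩
      have h8 : 8 * ((qq w).1 : ℝ) ≤ (M : ℝ) := by linarith [hw.2.1]
      exact_mod_cast h8)
  have hsum : ∑ w ∈ W, ((M : ℝ) * len w - 1 - (g : ℝ)) =
      (M : ℝ) * ∑ w ∈ W, len w - (W.card : ℝ) * (1 + (g : ℝ)) := by
    rw [Finset.mul_sum, Finset.sum_sub_distrib, Finset.sum_sub_distrib, Finset.sum_const,
      Finset.sum_const, nsmul_eq_mul, nsmul_eq_mul]
    ring
  have hMr : (0 : ℝ) ≤ (M : ℝ) := Nat.cast_nonneg M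
  have hgr : (0 : ℝ) ≤ (g : ℝ) := Nat.cast_nonneg g
  have hL : 1 - ε / 2 ≤ ∑ w ∈ W, len w := by linarith
  have h9 : (M : ℝ) * (1 - ε / 2) ≤ (M : ℝ) * ∑ w ∈ W, len w := mul_le_mul_of_nonneg_left hL hMr
  have h10 : (W.card : ℝ) * (1 + (g : ℝ)) ≤ 2 * Q ^ 2 * (1 + (g : ℝ)) :=
    mul_le_mul_of_nonneg_right f2 (by linarith)
  have h11 : (M : ℝ) * (1 - ε) ≤ ((univ.filter (fun b : Fin 1 → Fin M => Good 2 R (g * M)
      (vec 1 g a0 α (fun i => (b i : ℕ))) F)).card : ℝ) := by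
    refine le_trans ?_ hU
    rw [hsum]
    nlinarith
  have h12 := Finset.card_filter_add_card_filter_not (s := (univ : Finset (Fin 1 → Fin M)))
    (fun b : Fin 1 → Fin M => Good 2 R (g * M) (vec 1 g a0 α (fun i => (b i : ℕ))) F)
  rw [Finset.card_univ, Fintype.card_fun, Fintype.card_fin, Fintype.card_fin, pow_one] at h12
  have h13 : ((univ.filter (fun b : Fin 1 → Fin M => Good 2 R (g * M)
      (vec 1 g a0 α (fun i => (b i : ℕ))) F)).card : ℝ) +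
      ((univ.filter (fun b : Fin 1 → Fin M => ¬ Good 2 R (g * M)
      (vec 1 g a0 α (fun i => (b i : ℕ))) F)).card : ℝ) = (M : ℝ) := by
    exact_mod_cast h12
  have h14 : (univ.filter (fun b : Fin 1 → Fin M => ¬ Good (1 + 1) R (g * M)
      (vec 1 g a0 α (fun i => (b i : ℕ)))
      (c * (Real.log ((g * M : ℕ) : ℝ)) ^ 1 * Real.log (Real.log ((g * M : ℕ) : ℝ))))).card ≤
      (univ.filter (fun b : Fin 1 → Fin M => ¬ Good 2 R (g * M)
      (vec 1 g a0 α (fun i => (b i : ℕ))) F)).card := by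
    apply Finset.card_le_card
    intro b hb
    rw [Finset.mem_filter] at hb ⊢
    exact ⟨hb.1, fun hG => hb.2 (CORE1_mono hn4 hG)⟩
  have h15 : ((univ.filter (fun b : Fin 1 → Fin M => ¬ Good (1 + 1) R (g * M)
      (vec 1 g a0 α (fun i => (b i : ℕ)))
      (c * (Real.log ((g * M : ℕ) : ℝ)) ^ 1 * Real.log (Real.log ((g * M : ℕ) : ℝ))))).card : ℝ) ≤
      ((univ.filter (fun b : Fin 1 → Fin M => ¬ Good 2 R (g * M)
      (vec 1 g a0 α (fun i => (b i : ℕ))) F)).card : ℝ) := by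
    exact_mod_cast h14
  refine h15.trans ?_
  rw [pow_one]
  nlinarith

end Pool.Agent.H484.AL
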